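import Pool.Agent.helper17.EXC.Spec

/-!
# Project EXC (MP_561ff4_al), row RFP: reflections of positive roots
-/

set_option autoImplicit false

open Finset

namespace Pool.Agent.EXC

theorem RFP_pos (hDIC : DIC_stmt) (n : ℕ) (C : Matrix (Fin n) (Fin n) ℤ) [IsC C] (w : Fin n → ℤ) (hw : ip C w w = 2)
    (k : Fin n) (hk : 0 < w k) : Pos w := by
  rcases hDIC n C w hw with h | h
  · exact h
  · have h1 := h k
    rw [Pi.neg_apply] at h1
    omega

theorem RFP_sr (n : ℕ) (i k : Fin n) (h : k ≠ i) : (sr i : Fin n → ℤ) k = 0 := by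
  unfold sr
  exact Pi.single_eq_of_ne h 1

theorem RFP_coord (n : ℕ) (C : Matrix (Fin n) (Fin n) ℤ) [IsC C] (v : Fin n → ℤ) (hv : ip C v v = 2) (hp : Pos v)
    (i : Fin n) (hi : v ≠ sr i) : ∃ k, k ≠ i ∧ 0 < v k := by
  by_contra hcon
  have h0 : ∀ k, k ≠ i → v k = 0 := by
    intro k hk
    have h1 := hp k
    have h2 : ¬ 0 < v k := fun h => hcon ⟨k, hk, h⟩
    omega
  have h1 : v = v i • sr i := by
    funext k
    by_cases hk : k = i
    · subst hk
      simp [sr]
    · rw [h0 k hk, Pi.smul_apply, RFP_sr n i k hk, smul_zero]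
  have h2 : v i * (v i * 2) = 2 := by
    have h3 := hv
    rw [h1, ip_smul_left, ip_smul_right, ip_sr_self] at h3
    exact h3
  have h3 : v i = 1 := by
    have h4 := hp i
    nlinarith
  apply hi
  rw [h1, h3, one_smul]

theorem RFP (hRFL : RFL_stmt) (hDIC : DIC_stmt) : RFP_stmt := by
  intro n C _ v hv hp
  constructor
  · intro i hi
    obtain ⟨k, hk, hvk⟩ := RFP_coord n C v hv hp i hi
    obtain ⟨r1, -, -, -, r5⟩ := hRFL n C i v v
    refine ⟨?_, ?_, ?_⟩
    · refine RFP_pos hDIC n C _ (r1.trans hv) k ?_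
      rw [r5 k hk]
      exact hvk
    · intro h
      refine RFP_pos hDIC n C _ ((add_root_iff hv (ip_sr_self C i)).2 h) k ?_
      rw [Pi.add_apply, RFP_sr n i k hk, add_zero]
      exact hvk
    · intro h
      refine RFP_pos hDIC n C _ ((sub_root_iff hv (ip_sr_self C i)).2 h) k ?_
      rw [Pi.sub_apply, RFP_sr n i k hk, sub_zero]
      exact hvk
  · have h1 : ∃ i, 0 < v i ∧ 0 < ip C (sr i) v := by
      by_contra hcon
      have h2 : ip C v v ≤ 0 := by
        rw [ip_eq_sum]
        apply Finset.sum_nonpos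
        intro i _
        have h3 := hp i
        by_cases h4 : 0 < v i
        · have h5 : ip C (sr i) v ≤ 0 := by
            by_contra h6
            exact hcon ⟨i, h4, by omega⟩
          exact mul_nonpos_of_nonneg_of_nonpos h3 h5
        · have h5 : v i = 0 := by omega
          rw [h5, zero_mul]
      omega
    obtain ⟨i, hi, h2⟩ := h1
    rw [ip_comm C (sr i) v] at h2
    have h3 := (ip_abs_le hv (ip_sr_self C i)).2
    by_cases h4 : ip C v (sr i) = 2
    · left
      exact ⟨i, eq_of_ip_eq_two hv (ip_sr_self C i) h4⟩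
    · right
      exact ⟨i, by omega, hi⟩

end Pool.Agent.EXC
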