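import Pool.Agent.helper17.EXC.Spec

/-!
# Project EXC (MP_561ff4_al), row E2C: matrices of size 2
-/

set_option autoImplicit false

open Finset

namespace Pool.Agent.EXC

/-- the matrix with the columns `v`, `E v` -/
def E2C_P {F : Type} [Field F] (E : Matrix (Fin 2) (Fin 2) F) (a b : F) : Matrix (Fin 2) (Fin 2) F :=
  !![a, E 0 0 * a + E 0 1 * b; b, E 1 0 * a + E 1 1 * b]

/-- the companion matrix -/
def E2C_C {F : Type} [Field F] (t : F) : Matrix (Fin 2) (Fin 2) F := !![0, -1; 1, t]

theorem E2C_mul {F : Type} [Field F] (E : Matrix (Fin 2) (Fin 2) F) (hE : E.det = 1) (a b : F) :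
    E * E2C_P E a b = E2C_P E a b * E2C_C E.trace := by
  rw [Matrix.det_fin_two] at hE
  rw [Matrix.trace_fin_two]
  unfold E2C_P E2C_C
  ext i j
  fin_cases i <;> fin_cases j <;>
    simp only [Matrix.mul_apply, Fin.sum_univ_two, Matrix.of_apply, Matrix.cons_val', Matrix.cons_val_zero,
      Matrix.cons_val_one, Matrix.cons_val_fin_one, Fin.zero_eta, Fin.mk_one, Fin.isValue]
  · ring
  · linear_combination (-a) * hE
  · ring
  · linear_combination (-b) * hE

theorem E2C_comp {F : Type} [Field F] (E : Matrix (Fin 2) (Fin 2) F) (hE : E.det = 1)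
    (hns : ∀ c : F, E ≠ c • (1 : Matrix (Fin 2) (Fin 2) F)) :
    ∃ P P' : Matrix (Fin 2) (Fin 2) F, P * P' = 1 ∧ P' * P = 1 ∧ E = P * E2C_C E.trace * P' := by
  have h1 : ∃ a b : F, (E2C_P E a b).det ≠ 0 := by
    by_cases h10 : E 1 0 = 0
    · by_cases h01 : E 0 1 = 0
      · refine ⟨1, 1, ?_⟩
        unfold E2C_P
        rw [Matrix.det_fin_two_of, h10, h01]
        intro h
        apply hns (E 0 0)
        have h2 : E 1 1 = E 0 0 := by linear_combination h
        ext i j
        fin_cases i <;> fin_cases j <;> simp [h10, h01, h2]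
      · refine ⟨0, 1, ?_⟩
        unfold E2C_P
        rw [Matrix.det_fin_two_of]
        intro h
        apply h01
        linear_combination -h
    · refine ⟨1, 0, ?_⟩
      unfold E2C_P
      rw [Matrix.det_fin_two_of]
      intro h
      apply h10
      linear_combination h
  obtain ⟨a, b, hab⟩ := h1
  have hu : IsUnit (E2C_P E a b).det := isUnit_iff_ne_zero.2 hab
  refine ⟨E2C_P E a b, (E2C_P E a b)⁻¹, Matrix.mul_nonsing_inv _ hu, Matrix.nonsing_inv_mul _ hu, ?_⟩
  rw [← E2C_mul E hE, Matrix.mul_assoc, Matrix.mul_nonsing_inv _ hu, Matrix.mul_one]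

theorem E2C_two {F : Type} [Field F] (E E' : Matrix (Fin 2) (Fin 2) F) (hE : E.det = 1) (hE' : E'.det = 1)
    (ht : E.trace = E'.trace) (hns : ∀ c : F, E ≠ c • (1 : Matrix (Fin 2) (Fin 2) F))
    (hns' : ∀ c : F, E' ≠ c • (1 : Matrix (Fin 2) (Fin 2) F)) :
    ∃ h h' : Matrix (Fin 2) (Fin 2) F, h * h' = 1 ∧ h' * h = 1 ∧ E' = h * E * h' := by
  obtain ⟨P, P', p1, p2, p3⟩ := E2C_comp E hE hns
  obtain ⟨Q, Q', q1, q2, q3⟩ := E2C_comp E' hE' hns'
  have hC : E2C_C E.trace = P' * E * P := by
    have h : P' * (P * E2C_C E.trace * P') * P = E2C_C E.trace := by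
      calc P' * (P * E2C_C E.trace * P') * P = (P' * P) * E2C_C E.trace * (P' * P) := by
            simp only [Matrix.mul_assoc]
        _ = E2C_C E.trace := by rw [p2, Matrix.one_mul, Matrix.mul_one]
    rw [← p3] at h
    exact h.symm
  refine ⟨Q * P', P * Q', ?_, ?_, ?_⟩
  · calc Q * P' * (P * Q') = Q * (P' * P) * Q' := by simp only [Matrix.mul_assoc]
      _ = 1 := by rw [p2, Matrix.mul_one, q1]
  · calc P * Q' * (Q * P') = P * (Q' * Q) * P' := by simp only [Matrix.mul_assoc]
      _ = 1 := by rw [q2, Matrix.mul_one, p1]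
  · rw [← ht, hC] at q3
    rw [q3]
    simp only [Matrix.mul_assoc]

theorem E2C : E2C_stmt := by
  intro F _
  refine ⟨?_, fun E E' hE hE' ht hns hns' => E2C_two E E' hE hE' ht hns hns'⟩
  intro E hE
  by_cases hs : ∃ c : F, E = c • (1 : Matrix (Fin 2) (Fin 2) F)
  · obtain ⟨c, hc⟩ := hs
    refine ⟨1, 1, Matrix.mul_one _, Matrix.mul_one _, ?_⟩
    rw [Matrix.one_mul, Matrix.mul_one, Matrix.adjugate_fin_two, hc]
    ext i j
    fin_cases i <;> fin_cases j <;> simp
  · have hns : ∀ c : F, E ≠ c • (1 : Matrix (Fin 2) (Fin 2) F) := fun c h => hs ⟨c, h⟩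
    apply E2C_two E E.adjugate hE
    · rw [Matrix.adjugate_fin_two, Matrix.det_fin_two_of]
      rw [Matrix.det_fin_two] at hE
      linear_combination hE
    · rw [Matrix.adjugate_fin_two, Matrix.trace_fin_two, Matrix.trace_fin_two_of]
      ring
    · exact hns
    · intro c hc
      apply hns c
      have h00 := congrFun (congrFun hc 0) 0
      have h01 := congrFun (congrFun hc 0) 1
      have h10 := congrFun (congrFun hc 1) 0
      have h11 := congrFun (congrFun hc 1) 1
      rw [Matrix.adjugate_fin_two] at h00 h01 h10 h11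
      simp at h00 h01 h10 h11
      ext i j
      fin_cases i <;> fin_cases j <;> simp [h00, h01, h10, h11]

end Pool.Agent.EXC
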