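import Pool.Agent.helper32.EXC.Spec11

set_option autoImplicit false

open Finset

namespace Pool.Agent.EXC

theorem T11ZM1 (hNBR : NBR_stmt) (hT11TE8 : T11TE8_stmt) (hT11MI8 : T11MI8_stmt) (hT11OR8 : T11OR8_stmt)
    (hT11WA8 : T11WA8_stmt) (hTPF : TPF_stmt) (hEXF : EXF_stmt) : T11ZM1_stmt := by
  intro _ F _ j0 δ hE m hm
  have hne := (hNBR 8 CartanMatrix.E₈ j0 th8 δ hE).1
  obtain ⟨-, -, hX, -⟩ := hEXF 8 CartanMatrix.E₈ F hne
  have hTE := hT11TE8 F hne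
  have hWA := hT11WA8 F hne
  have hb := fun i => hT11MI8 F j0 δ hE i m hm
  choose b hbT hbg using hb
  have hTP := fun i => hTPF 8 CartanMatrix.E₈ F th8 hE.th2 hne (c8 F i) (b i) m (hbT i)
  have hh : ∀ i, ∃ h, IsX CartanMatrix.E₈ (b i) 1 h := by
    intro i
    obtain ⟨h, -, h2⟩ := (hX (b i) (hTP i).2.1).2.2.2.2.1 1
    exact ⟨h, h2⟩
  choose h hh using hh
  refine ⟨fun i => gw8 F (tw8 i) * h i, fun i => ?_, fun N hN => ?_⟩
  · refine ⟨c8 F i, b i, gw8 F (tw8 i), h i, hbT i, ?_, (hTE i).2.1, hh i, rfl⟩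
    by_contra hne0
    have h1 := (hTP i).2.2.2.2.2.1.1 hne0
    rcases hm with rfl | rfl <;> omega
  · refine hT11OR8 F hne _ (fun v => ?_) N hN
    have hact : ∀ (i : Fin 5) (v : Fin 14 → F), ∃ w : Fin 14 → F,
        (gw8 F (tw8 i) * h i) (em8 v) = em8 w ∧ gw8 F (tw8 i) (em8 v) = em8 w := by
      intro i v
      obtain ⟨w, hw⟩ := (hWA (tw8 i) []).2.2.2.1 v
      refine ⟨w, ?_, hw⟩
      rw [LinearEquiv.mul_apply, hbg i (h i) (hh i) v, hw]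
    obtain ⟨w4, a4, b4⟩ := hact 4 v
    obtain ⟨w3, a3, b3⟩ := hact 3 w4
    obtain ⟨w2, a2, b2⟩ := hact 2 w3
    obtain ⟨w1, a1, b1⟩ := hact 1 w2
    obtain ⟨w0, a0, b0⟩ := hact 0 w1
    have happ : ∀ l l' : List (Fin 15 × ℤ), gw8 F (l ++ l') = gw8 F l * gw8 F l' := fun l l' => (hWA l l').2.2.1
    rw [LinearEquiv.mul_apply, LinearEquiv.mul_apply, LinearEquiv.mul_apply, LinearEquiv.mul_apply, a4, a3, a2, a1, a0]
    rw [zw8, happ, happ, happ, happ, LinearEquiv.mul_apply, LinearEquiv.mul_apply, LinearEquiv.mul_apply,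
      LinearEquiv.mul_apply, b4, b3, b2, b1, b0]

end Pool.Agent.EXC
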